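import Mathlib

/-!
A two-parameter family of reduced Hilbert cubes of dimension 3 in the squares (Euler's equal
areas), `a₁ = a₂ < a₃`.
-/

namespace Pool.Agent.H38.H3

/-- `k = r² + rs + s²` -/
def K (r s : ℤ) : ℤ := r ^ 2 + r * s + s ^ 2
/-- `l = r² - s²` -/
def L (r s : ℤ) : ℤ := r ^ 2 - s ^ 2
/-- `m = 2rs + s²` -/
def M (r s : ℤ) : ℤ := 2 * r * s + s ^ 2
/-- root of `a₀` -/
def X1 (r s : ℤ) : ℤ := K r s ^ 2 - L r s ^ 2 - 2 * K r s * L r s
/-- root of `a₀ + a₁` -/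
def C1 (r s : ℤ) : ℤ := K r s ^ 2 + L r s ^ 2
/-- root of `a₀ + 2 a₁` -/
def Z1 (r s : ℤ) : ℤ := K r s ^ 2 - L r s ^ 2 + 2 * K r s * L r s
/-- root of `a₀ + a₃` -/
def X2 (r s : ℤ) : ℤ := K r s ^ 2 - M r s ^ 2 - 2 * K r s * M r s
/-- root of `a₀ + a₁ + a₃` -/
def C2 (r s : ℤ) : ℤ := K r s ^ 2 + M r s ^ 2
/-- root of `a₀ + 2 a₁ + a₃` -/
def Z2 (r s : ℤ) : ℤ := K r s ^ 2 - M r s ^ 2 + 2 * K r s * M r s
/-- `a₁ = a₂` -/
def A (r s : ℤ) : ℤ := 4 * K r s * L r s * (K r s ^ 2 - L r s ^ 2)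
/-- `a₃` -/
def B (r s : ℤ) : ℤ := (M r s ^ 2 - L r s ^ 2) * (2 * K r s ^ 2 + M r s ^ 2 + L r s ^ 2)

theorem e1 (r s : ℤ) : C1 r s ^ 2 = X1 r s ^ 2 + A r s := by
  simp only [C1, X1, A]; ring

theorem e2 (r s : ℤ) : Z1 r s ^ 2 = X1 r s ^ 2 + 2 * A r s := by
  simp only [Z1, X1, A]; ring

theorem e3 (r s : ℤ) : X2 r s ^ 2 = X1 r s ^ 2 + B r s := by
  simp only [X2, X1, B, K, L, M]; ring

theorem e4 (r s : ℤ) : C2 r s ^ 2 = X1 r s ^ 2 + A r s + B r s := by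
  simp only [C2, X1, A, B, K, L, M]; ring

theorem e5 (r s : ℤ) : Z2 r s ^ 2 = X1 r s ^ 2 + 2 * A r s + B r s := by
  simp only [Z2, X1, A, B, K, L, M]; ring

theorem pos {r s : ℤ} (h1 : s < r) (h2 : 2 * r ≤ 3 * s) :
    0 < X1 r s ∧ 0 < A r s ∧ A r s < B r s ∧ 0 < C1 r s ∧ 0 < Z2 r s ∧
      Z2 r s ≤ 27 * r ^ 4 ∧ 0 < L r s ∧ L r s < K r s := by
  obtain ⟨t, ht⟩ : ∃ t, t = r - s := ⟨_, rfl⟩
  obtain ⟨u, hu⟩ : ∃ u, u = 3 * s - 2 * r := ⟨_, rfl⟩
  have ht0 : 0 < t := by omega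
  have hu0 : 0 ≤ u := by omega
  obtain rfl : s = 2 * t + u := by omega
  obtain rfl : r = 3 * t + u := by omega
  have hk : K (3 * t + u) (2 * t + u) = 19 * t ^ 2 + 15 * t * u + 3 * u ^ 2 := by
    simp only [K]; ring
  have hl : L (3 * t + u) (2 * t + u) = 5 * t ^ 2 + 2 * t * u := by
    simp only [L]; ring
  have hm : M (3 * t + u) (2 * t + u) = 16 * t ^ 2 + 14 * t * u + 3 * u ^ 2 := by
    simp only [M]; ring
  refine ⟨?_, ?_, ?_, ?_, ?_, ?_, ?_, ?_⟩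
  · have : X1 (3 * t + u) (2 * t + u) = 146 * t ^ 4 + 324 * t ^ 3 * u + 245 * t ^ 2 * u ^ 2
        + 78 * t * u ^ 3 + 9 * u ^ 4 := by
      simp only [X1, hk, hl]; ring
    rw [this]; positivity
  · have : A (3 * t + u) (2 * t + u) = 4 * (19 * t ^ 2 + 15 * t * u + 3 * u ^ 2)
        * (5 * t ^ 2 + 2 * t * u) * ((14 * t ^ 2 + 13 * t * u + 3 * u ^ 2) *
          (24 * t ^ 2 + 17 * t * u + 3 * u ^ 2)) := by
      simp only [A, hk, hl]; ring
    rw [this]; positivity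
  · have : B (3 * t + u) (2 * t + u) - A (3 * t + u) (2 * t + u) = 104013 * t ^ 8
        + 439860 * t ^ 7 * u + 765702 * t ^ 6 * u ^ 2 + 732528 * t ^ 5 * u ^ 3
        + 426240 * t ^ 4 * u ^ 4 + 155568 * t ^ 3 * u ^ 5 + 34938 * t ^ 2 * u ^ 6
        + 4428 * t * u ^ 7 + 243 * u ^ 8 := by
      simp only [A, B, hk, hl, hm]; ring
    have h : 0 < B (3 * t + u) (2 * t + u) - A (3 * t + u) (2 * t + u) := by
      rw [this]; positivity
    omega
  · simp only [C1, hk]; positivity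
  · have : Z2 (3 * t + u) (2 * t + u) = 713 * t ^ 4 + 1134 * t ^ 3 * u + 677 * t ^ 2 * u ^ 2
        + 180 * t * u ^ 3 + 18 * u ^ 4 := by
      simp only [Z2, hk, hm]; ring
    rw [this]; positivity
  · have h : 27 * (3 * t + u) ^ 4 - Z2 (3 * t + u) (2 * t + u) = 1474 * t ^ 4
        + 1782 * t ^ 3 * u + 781 * t ^ 2 * u ^ 2 + 144 * t * u ^ 3 + 9 * u ^ 4 := by
      simp only [Z2, hk, hm]; ring
    have h' : 0 ≤ 27 * (3 * t + u) ^ 4 - Z2 (3 * t + u) (2 * t + u) := by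
      rw [h]; positivity
    omega
  · rw [hl]; positivity
  · rw [hl, hk]
    have : 0 < 14 * t ^ 2 + 13 * t * u + 3 * u ^ 2 := by positivity
    linarith

/-- the ratio of the roots determines `(r, s)` -/
theorem inj {r s r' s' : ℤ} (h1 : s < r) (h2 : 2 * r ≤ 3 * s) (h1' : s' < r')
    (h2' : 2 * r' ≤ 3 * s') (h : X1 r s * C1 r' s' = X1 r' s' * C1 r s) : r * s' = r' * s := by
  obtain ⟨-, -, -, -, -, -, hl, hlk⟩ := pos h1 h2
  obtain ⟨-, -, -, -, -, -, hl', hlk'⟩ := pos h1' h2'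
  have key : (L r s * K r' s' - K r s * L r' s') *
      (L r s * K r' s' + K r s * L r' s' + K r s * K r' s' - L r s * L r' s') = 0 := by
    have : 2 * ((L r s * K r' s' - K r s * L r' s') *
      (L r s * K r' s' + K r s * L r' s' + K r s * K r' s' - L r s * L r' s')) =
      X1 r' s' * C1 r s - X1 r s * C1 r' s' := by
      simp only [X1, C1]; ring
    rw [h, sub_self] at this
    linarith
  have hpos : 0 < L r s * K r' s' + K r s * L r' s' + K r s * K r' s' - L r s * L r' s' := by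
    have a1 : 0 < L r s * K r' s' := mul_pos hl (hl'.trans hlk')
    have a2 : 0 < K r s * L r' s' := mul_pos (hl.trans hlk) hl'
    have a3 : L r s * L r' s' < K r s * K r' s' := mul_lt_mul'' hlk hlk' hl.le hl'.le
    linarith
  have key2 : L r s * K r' s' - K r s * L r' s' = 0 := by
    rcases mul_eq_zero.1 key with h3 | h3
    · exact h3
    · exact absurd h3 hpos.ne'
  have key3 : (r * s' - r' * s) * (r * r' + s * s' + 2 * r * s' + 2 * r' * s) = 0 := by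
    have : (r * s' - r' * s) * (r * r' + s * s' + 2 * r * s' + 2 * r' * s) =
        L r s * K r' s' - K r s * L r' s' := by
      simp only [L, K]; ring
    rw [this, key2]
  have hs : 0 < s := by omega
  have hs' : 0 < s' := by omega
  have hr : 0 < r := by omega
  have hr' : 0 < r' := by omega
  have hpos2 : 0 < r * r' + s * s' + 2 * r * s' + 2 * r' * s := by positivity
  rcases mul_eq_zero.1 key3 with h3 | h3
  · linarith
  · exact absurd h3 hpos2.ne'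

end Pool.Agent.H38.H3
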