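import Pool.Agent.H38.H3.Red
import Pool.Agent.H96.H3.Pairs

/-!
`H_3(N) ≥ c N^(1/4)`.
-/

namespace Pool.Agent.H38.H3

theorem main : ∃ c : ℝ, 0 < c ∧ ∃ N₀ : ℕ, ∀ N : ℕ, N₀ ≤ N →
    c * (N : ℝ) ^ (1 / 4 : ℝ) ≤ ((T N).ncard : ℝ) := by
  obtain ⟨c, hc, R₀, hR⟩ := Pool.Agent.H96.H3.pairs
  refine ⟨c / 36, by positivity, (6 * (R₀ + 1)) ^ 8, fun N hN => ?_⟩
  obtain ⟨y, hy⟩ : ∃ y : ℝ, y = (N : ℝ) ^ (1 / 8 : ℝ) := ⟨_, rfl⟩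
  have hN0 : (0 : ℝ) ≤ N := Nat.cast_nonneg N
  have hy8 : y ^ 8 = N := by
    rw [hy, ← Real.rpow_natCast, ← Real.rpow_mul hN0]; norm_num
  have hy4 : (N : ℝ) ^ (1 / 4 : ℝ) = y ^ 2 := by
    rw [hy, ← Real.rpow_natCast, ← Real.rpow_mul hN0]; norm_num
  have hy0 : 0 ≤ y := hy ▸ Real.rpow_nonneg hN0 _
  have hyR : 6 * ((R₀ : ℝ) + 1) ≤ y := by
    have h1 : (6 * ((R₀ : ℝ) + 1)) ^ 8 ≤ y ^ 8 := by
      rw [hy8]; exact_mod_cast hN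
    exact le_of_pow_le_pow_left₀ (by norm_num) hy0 h1
  obtain ⟨R, hRd⟩ : ∃ R : ℕ, R = ⌊y / 3⌋₊ := ⟨_, rfl⟩
  have hR1 : (R : ℝ) ≤ y / 3 := hRd ▸ Nat.floor_le (by positivity)
  have hR2 : y / 3 < R + 1 := hRd ▸ Nat.lt_floor_add_one _
  have hR0 : (0 : ℝ) ≤ R₀ := Nat.cast_nonneg _
  have hR3 : y / 6 ≤ R := by linarith
  have hR4 : R₀ ≤ R := by
    have : (R₀ : ℝ) < R + 1 := by linarith
    have : R₀ < R + 1 := by exact_mod_cast this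
    omega
  have h8 : 729 * R ^ 8 ≤ N := by
    have h1 : (R : ℝ) ^ 8 ≤ (y / 3) ^ 8 := pow_le_pow_left₀ (Nat.cast_nonneg _) hR1 8
    have h2 : (y / 3) ^ 8 = N / 6561 := by rw [div_pow, hy8]; norm_num
    have h3 : (729 : ℝ) * (R : ℝ) ^ 8 ≤ N := by
      rw [h2] at h1
      linarith
    exact_mod_cast h3
  have h9 := hR R hR4
  have h10 : ((P R).card : ℝ) ≤ ((T N).ncard : ℝ) := by exact_mod_cast card_le h8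
  have h11 : y ^ 2 / 36 ≤ (R : ℝ) ^ 2 := by
    have : (y / 6) ^ 2 ≤ (R : ℝ) ^ 2 := pow_le_pow_left₀ (by positivity) hR3 2
    calc y ^ 2 / 36 = (y / 6) ^ 2 := by ring
      _ ≤ _ := this
  calc c / 36 * (N : ℝ) ^ (1 / 4 : ℝ) = c * (y ^ 2 / 36) := by rw [hy4]; ring
    _ ≤ c * (R : ℝ) ^ 2 := mul_le_mul_of_nonneg_left h11 hc.le
    _ ≤ ((P R).card : ℝ) := h9
    _ ≤ _ := h10

end Pool.Agent.H38.H3
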