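import Pool.Agent.H38.H3.Fam

/-!
Every cube of the family is `G²` times a reduced cube in the squares; the map to the reduced
cube is injective on coprime pairs.
-/

namespace Pool.Agent.H38.H3

/-- the reduced cubes of dimension 3 in the squares with `a₁ = a₂ < a₃` up to `N` -/
def T (N : ℕ) : Set (ℤ × (Fin 3 → ℤ)) :=
  {c | 0 ≤ c.1 ∧ c.1 ≤ N ∧ (∀ i, 0 < c.2 i ∧ c.2 i ≤ N) ∧ c.2 0 = c.2 1 ∧ c.2 1 < c.2 2 ∧
    (∀ e : ℤ, e ∣ c.1 → (∀ i, e ∣ c.2 i) → IsUnit e) ∧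
    ∀ I : Finset (Fin 3), IsSquare (c.1 + ∑ i ∈ I, c.2 i)}

theorem sq_of {G n : ℤ} (hG : 0 < G) {y : ℤ} (h : y ^ 2 = G ^ 2 * n) : IsSquare n := by
  have h1 : G ^ 2 ∣ y ^ 2 := ⟨n, h⟩
  have h2 : G ∣ y := (Int.pow_dvd_pow_iff (by norm_num)).1 h1
  obtain ⟨w, rfl⟩ := h2
  refine ⟨w, ?_⟩
  have hG2 : G ^ 2 ≠ 0 := by positivity
  apply mul_left_cancel₀ hG2
  rw [← h]; ring

theorem reduce {x c y A B : ℤ} (hx : 0 < x) (h1 : c ^ 2 = x ^ 2 + A) (h2 : y ^ 2 = x ^ 2 + B) :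
    ∃ G : ℤ, 0 < G ∧ ∃ a b d : ℤ, x ^ 2 = G ^ 2 * a ∧ A = G ^ 2 * b ∧ B = G ^ 2 * d ∧
      ∀ e : ℤ, e ∣ a → e ∣ b → e ∣ d → IsUnit e := by
  have hg : 0 < Int.gcd x (Int.gcd c y) := Int.gcd_pos_of_ne_zero_left _ hx.ne'
  obtain ⟨G, hG⟩ : ∃ G : ℕ, G = Int.gcd x (Int.gcd c y) := ⟨_, rfl⟩
  have hG0 : 0 < G := hG ▸ hg
  have hGx : (G : ℤ) ∣ x := hG ▸ Int.gcd_dvd_left _ _
  have hGcy : (G : ℤ) ∣ (Int.gcd c y : ℤ) := hG ▸ Int.gcd_dvd_right _ _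
  have hGc : (G : ℤ) ∣ c := hGcy.trans (Int.gcd_dvd_left _ _)
  have hGy : (G : ℤ) ∣ y := hGcy.trans (Int.gcd_dvd_right _ _)
  obtain ⟨x', hx'⟩ := hGx
  obtain ⟨c', hc'⟩ := hGc
  obtain ⟨y', hy'⟩ := hGy
  refine ⟨G, by exact_mod_cast hG0, x' ^ 2, c' ^ 2 - x' ^ 2, y' ^ 2 - x' ^ 2, by rw [hx']; ring,
    ?_, ?_, ?_⟩
  · have : A = c ^ 2 - x ^ 2 := by rw [h1]; ring
    rw [this, hc', hx']; ring
  · have : B = y ^ 2 - x ^ 2 := by rw [h2]; ring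
    rw [this, hy', hx']; ring
  · intro e ha hb hd
    by_contra hu
    have hna : e.natAbs ≠ 1 := fun h => hu (Int.isUnit_iff_natAbs_eq.2 h)
    obtain ⟨p, hp, hpe⟩ := Nat.exists_prime_and_dvd hna
    have hpe' : (p : ℤ) ∣ e := Int.natCast_dvd.2 hpe
    have hpp : Prime (p : ℤ) := Nat.prime_iff_prime_int.1 hp
    have p1 : (p : ℤ) ∣ x' := hpp.dvd_of_dvd_pow (hpe'.trans ha)
    have p2 : (p : ℤ) ∣ c' := by
      have : (p : ℤ) ∣ (c' ^ 2 - x' ^ 2) + x' ^ 2 :=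
        dvd_add (hpe'.trans hb) (hpe'.trans ha)
      rw [sub_add_cancel] at this
      exact hpp.dvd_of_dvd_pow this
    have p3 : (p : ℤ) ∣ y' := by
      have : (p : ℤ) ∣ (y' ^ 2 - x' ^ 2) + x' ^ 2 :=
        dvd_add (hpe'.trans hd) (hpe'.trans ha)
      rw [sub_add_cancel] at this
      exact hpp.dvd_of_dvd_pow this
    have q1 : (G : ℤ) * p ∣ x := hx' ▸ mul_dvd_mul_left _ p1
    have q2 : (G : ℤ) * p ∣ c := hc' ▸ mul_dvd_mul_left _ p2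
    have q3 : (G : ℤ) * p ∣ y := hy' ▸ mul_dvd_mul_left _ p3
    have q4 : (G : ℤ) * p ∣ (Int.gcd c y : ℤ) := Int.dvd_coe_gcd q2 q3
    have q5 : (G : ℤ) * p ∣ (Int.gcd x (Int.gcd c y) : ℤ) := Int.dvd_coe_gcd q1 q4
    rw [← hG] at q5
    have q6 : G * p ∣ G := by exact_mod_cast q5
    have q7 : G * p ≤ G := Nat.le_of_dvd hG0 q6
    have q8 : 2 ≤ p := hp.two_le
    nlinarith

theorem exists_cube {N : ℕ} {r s : ℤ} (h1 : s < r) (h2 : 2 * r ≤ 3 * s)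
    (hN : 729 * r ^ 8 ≤ N) :
    ∃ q : ℤ × (Fin 3 → ℤ), q ∈ T N ∧ ∃ G : ℤ, 0 < G ∧ X1 r s ^ 2 = G ^ 2 * q.1 ∧
      C1 r s ^ 2 = G ^ 2 * (q.1 + q.2 0) := by
  obtain ⟨hX, hA, hAB, hC, hZ, hZr, -, -⟩ := pos h1 h2
  obtain ⟨G, hG, a, b, d, ga, gb, gd, hred⟩ := reduce hX (e1 r s) (e3 r s)
  have hG2 : 0 < G ^ 2 := by positivity
  have hG1 : 1 ≤ G ^ 2 := hG2
  have ha : 0 < a := by
    have : 0 < G ^ 2 * a := ga ▸ (by positivity)
    exact (mul_pos_iff_of_pos_left hG2).1 this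
  have hb : 0 < b := by
    have : 0 < G ^ 2 * b := gb ▸ hA
    exact (mul_pos_iff_of_pos_left hG2).1 this
  have hbd : b < d := by
    have : G ^ 2 * b < G ^ 2 * d := by rw [← gb, ← gd]; exact hAB
    exact lt_of_mul_lt_mul_left this hG2.le
  have htot : a + 2 * b + d ≤ N := by
    have t1 : G ^ 2 * (a + 2 * b + d) = Z2 r s ^ 2 := by
      rw [e5, ga, gb, gd]; ring
    have t2 : Z2 r s ^ 2 ≤ (27 * r ^ 4) ^ 2 := pow_le_pow_left₀ hZ.le hZr 2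
    have t3 : (27 * r ^ 4) ^ 2 = 729 * r ^ 8 := by ring
    have t4 : a + 2 * b + d ≤ G ^ 2 * (a + 2 * b + d) :=
      le_mul_of_one_le_left (by linarith) hG1
    linarith
  refine ⟨(a, ![b, b, d]), ⟨ha.le, by simp only; linarith, ?_, rfl, ?_, ?_, ?_⟩, G, hG, ga, ?_⟩
  · intro i
    fin_cases i <;> simp <;> constructor <;> linarith
  · simpa using hbd
  · intro e h0 hi
    exact hred e h0 (by simpa using hi 0) (by simpa using hi 2)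
  · intro I
    have hs : ∑ i ∈ I, (![b, b, d] : Fin 3 → ℤ) i = (if (0 : Fin 3) ∈ I then b else 0)
        + (if (1 : Fin 3) ∈ I then b else 0) + (if (2 : Fin 3) ∈ I then d else 0) := by
      have := Finset.sum_ite_mem Finset.univ I (![b, b, d] : Fin 3 → ℤ)
      rw [Finset.univ_inter] at this
      rw [← this, Fin.sum_univ_three]
      simp
    have f0 : IsSquare a := sq_of hG ga
    have f1 : IsSquare (a + b) := sq_of hG (y := C1 r s) (by rw [e1, ga, gb]; ring)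
    have f2 : IsSquare (a + 2 * b) := sq_of hG (y := Z1 r s) (by rw [e2, ga, gb]; ring)
    have f3 : IsSquare (a + d) := sq_of hG (y := X2 r s) (by rw [e3, ga, gd]; ring)
    have f4 : IsSquare (a + b + d) := sq_of hG (y := C2 r s) (by rw [e4, ga, gb, gd]; ring)
    have f5 : IsSquare (a + 2 * b + d) := sq_of hG (y := Z2 r s) (by rw [e5, ga, gb, gd]; ring)
    simp only
    rw [hs]
    split_ifs
    · convert f5 using 1; ring
    · convert f2 using 1; ring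
    · convert f4 using 1; ring
    · convert f1 using 1; ring
    · convert f4 using 1; ring
    · convert f1 using 1; ring
    · convert f3 using 1; ring
    · convert f0 using 1; ring
  · simp only [Matrix.cons_val_zero]
    rw [e1, ga, gb]; ring

theorem finite_T (N : ℕ) : (T N).Finite := by
  classical
  apply (Set.finite_Icc ((0 : ℤ), (fun _ => 0 : Fin 3 → ℤ)) ((N : ℤ), fun _ => (N : ℤ))).subset
  rintro ⟨a, f⟩ ⟨h1, h2, h3, -⟩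
  exact ⟨⟨h1, fun i => (h3 i).1.le⟩, ⟨h2, fun i => (h3 i).2⟩⟩

/-- the coprime pairs -/
def P (R : ℕ) : Finset (ℕ × ℕ) :=
  (Finset.Icc 1 R ×ˢ Finset.Icc 1 R).filter
    (fun p : ℕ × ℕ => p.2 < p.1 ∧ 2 * p.1 ≤ 3 * p.2 ∧ Nat.Coprime p.1 p.2)

theorem card_le {N R : ℕ} (h : 729 * R ^ 8 ≤ N) : (P R).card ≤ (T N).ncard := by
  have key : ∀ p : ℕ × ℕ, p ∈ P R → ∃ q : ℤ × (Fin 3 → ℤ), q ∈ T N ∧ ∃ G : ℤ, 0 < G ∧
      X1 p.1 p.2 ^ 2 = G ^ 2 * q.1 ∧ C1 p.1 p.2 ^ 2 = G ^ 2 * (q.1 + q.2 0) := by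
    intro p hp
    rw [P, Finset.mem_filter, Finset.mem_product, Finset.mem_Icc, Finset.mem_Icc] at hp
    obtain ⟨⟨⟨h1, h2⟩, h3, h4⟩, h5, h6, h7⟩ := hp
    refine exists_cube (by exact_mod_cast h5) (by exact_mod_cast h6) ?_
    have : 729 * p.1 ^ 8 ≤ N := le_trans (by gcongr) h
    exact_mod_cast this
  choose! f hf hG using key
  rw [← Set.ncard_coe_finset]
  refine Set.ncard_le_ncard_of_injOn f (fun p hp => hf p hp) ?_ (finite_T N)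
  intro p hp q hq hpq
  have hp' : p ∈ P R := hp
  have hq' : q ∈ P R := hq
  obtain ⟨G, g0, g1, g2⟩ := hG p hp'
  obtain ⟨G', g0', g1', g2'⟩ := hG q hq'
  rw [P, Finset.mem_filter, Finset.mem_product, Finset.mem_Icc, Finset.mem_Icc] at hp' hq'
  obtain ⟨⟨⟨h1, h2⟩, h3, h4⟩, h5, h6, h7⟩ := hp'
  obtain ⟨⟨⟨k1, k2⟩, k3, k4⟩, k5, k6, k7⟩ := hq'
  have i5 : (p.2 : ℤ) < p.1 := by exact_mod_cast h5
  have i6 : 2 * (p.1 : ℤ) ≤ 3 * p.2 := by exact_mod_cast h6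
  have j5 : (q.2 : ℤ) < q.1 := by exact_mod_cast k5
  have j6 : 2 * (q.1 : ℤ) ≤ 3 * q.2 := by exact_mod_cast k6
  obtain ⟨x0, -, -, c0, -⟩ := pos i5 i6
  obtain ⟨x0', -, -, c0', -⟩ := pos j5 j6
  have hm : X1 p.1 p.2 * C1 q.1 q.2 = X1 q.1 q.2 * C1 p.1 p.2 := by
    have hsq : (X1 p.1 p.2 * C1 q.1 q.2) ^ 2 = (X1 q.1 q.2 * C1 p.1 p.2) ^ 2 := by
      rw [mul_pow, mul_pow, g1, g2, g1', g2', hpq]; ring
    exact (pow_left_inj₀ (by positivity) (by positivity) (by norm_num)).1 hsq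
  have hr := inj i5 i6 j5 j6 hm
  have hr' : p.1 * q.2 = q.1 * p.2 := by exact_mod_cast hr
  have d1 : p.1 ∣ q.1 := h7.dvd_of_dvd_mul_right ⟨q.2, hr'.symm⟩
  have d2 : q.1 ∣ p.1 := k7.dvd_of_dvd_mul_right ⟨p.2, hr'⟩
  have e : p.1 = q.1 := Nat.dvd_antisymm d1 d2
  have e' : p.2 = q.2 := by
    rw [e] at hr'
    exact (Nat.eq_of_mul_eq_mul_left (by omega) hr').symm
  exact Prod.ext e e'

end Pool.Agent.H38.H3
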